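import Pool.Agent.H19.OM.Stm4
import Pool.Agent.H23.OM.Sml

/-!
# The module SMC of the project OM (helper19), by helper39 after helper23's SML
-/

set_option autoImplicit false
set_option linter.all false

namespace Pool.Agent.H39.OM

open Finset hiding val
open MeasureTheory ProbabilityTheory
open Pool.Agent.H19.OM Pool.Agent.H23.OM
open scoped NNReal

theorem t_SMC (hSWC : S_SWC) (hCRT : S_CRT) : S_SMC := by
  intro C hC
  obtain ⟨K, hK, hSW⟩ := hSWC C hC
  refine ⟨K, hK, fun S => ?_⟩
  induction S using Finset.induction_on with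
  | empty =>
    intro k L a _ _ _ _ φ _
    simp only [J_empty, I_empty, sub_self, abs_zero, sum_empty, mul_zero, zero_div]
    exact le_rfl
  | insert p S hpS ih =>
    intro k L a hk ha hka hS φ hφ
    have hp := hS p (mem_insert_self p S)
    have hS' : ∀ q ∈ S, q.Prime ∧ 1 ≤ L q ∧ (L q : ℝ) ^ 2 ≤ a := fun q hq =>
      hS q (mem_insert_of_mem hq)
    have hdis : Disjoint ({p} : Finset ℕ) S := disjoint_singleton_left.2 hpS
    have hpr : ∀ q ∈ ({p} : Finset ℕ) ∪ S, q.Prime := by
      intro q hq
      rcases mem_union.1 hq with h | h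
      · rw [mem_singleton.1 h]
        exact hp.1
      · exact (hS' q h).1
    have hins : insert p S = {p} ∪ S := insert_eq p S
    set c : ℝ := (k : ℝ) / (p * Real.sqrt p) + Real.sqrt k / p with hc
    set d : ℝ := ∑ q ∈ S, ((k : ℝ) / (q * Real.sqrt q) + Real.sqrt k / q) with hd
    have hd0 : 0 ≤ d := sum_nonneg fun q _ => by positivity
    have hbd : 0 ≤ K * d / a := by positivity
    rw [sum_insert hpS, hins]
    -- the functions
    have e1 : ∀ w : Fin k → ℕ, J L ({p} ∪ S) (fun u => φ (w + u)) =
        J L {p} (fun u => (fun x => J L S (fun v => φ (x + v))) (w + u)) := by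
      intro w
      rw [(hCRT L {p} S hdis hpr k (fun u => φ (w + u))).1]
      simp only [add_assoc]
    have e2 : ∀ w : Fin k → ℕ, I L ({p} ∪ S) (fun u => φ (w + u)) =
        I L {p} (fun u => I L S (fun v => φ (w + u + v))) := by
      intro w
      rw [(hCRT L {p} S hdis hpr k (fun u => φ (w + u))).2]
      simp only [add_assoc]
    simp only [e1, e2]
    have hψ : Bd (fun x => J L S (fun v => φ (x + v))) := fun x =>
      J_le zero_le_one fun v => hφ _
    have h1 := hSW p k L a hp.1 hp.2.1 hk ha hka hp.2.2 _ hψ
    have h2 : P a (fun w => I L {p} (fun u => J L S (fun v => φ (w + u + v)))) =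
        I L {p} (fun u => P a (fun w => J L S (fun v => φ (w + u + v)))) :=
      P_I a (B := 1) (F := fun w u => J L S (fun v => φ (w + u + v))) fun w u =>
        J_le zero_le_one fun v => hφ _
    have h3 : P a (fun w => I L {p} (fun u => I L S (fun v => φ (w + u + v)))) =
        I L {p} (fun u => P a (fun w => I L S (fun v => φ (w + u + v)))) :=
      P_I a (B := 1) (F := fun w u => I L S (fun v => φ (w + u + v))) fun w u =>
        I_le zero_le_one fun v => hφ _
    have h4 : |I L {p} (fun u => P a (fun w => J L S (fun v => φ (w + u + v)))) -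
        I L {p} (fun u => P a (fun w => I L S (fun v => φ (w + u + v))))| ≤ K * d / a := by
      rw [I_sub]
      refine I_le hbd fun u => ?_
      have h5 := ih k L a hk ha hka hS' (fun x => φ (x + u)) fun z => hφ _
      have h6 : ∀ w v : Fin k → ℕ, w + v + u = w + u + v := fun w v => add_right_comm w v u
      simp only [h6] at h5
      exact h5
    beta_reduce at h1
    rw [h2] at h1
    rw [h3]
    refine (abs_sub_le _ _ _).trans ((add_le_add h1 h4).trans_eq ?_)
    ring

end Pool.Agent.H39.OM
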